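import Pool.Agent.L0h45.LR.Stm
import Pool.Agent.N415.PQ.Bad

/-!
# Project LR (helper45): few bad curves on a line, after `N415/PQ/Bad.lean`
-/

set_option autoImplicit false
set_option linter.all false

open scoped Classical

namespace Pool.Agent.L0h84.LR

open Pool.Agent.N874.PP (Tup chA chB gq tau Two)
open Pool.Agent.N922.PQ
open Pool.Agent.N415.PQ (ncard_biUnion_le geo_sum prod_pos_of_good four_pow_le)
open Pool.Agent.L0h45.LR

/-- **BADL** -/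
theorem t_BADL (h1 : S_BOXL) (h2 : S_BX0) (h3 : S_ORBL) : S_BADL := by
  intro κ
  obtain ⟨K1, hK1⟩ := h1 (29 * κ)
  obtain ⟨K0, hK0⟩ := h2 (29 * κ)
  obtain ⟨K2, hK2⟩ := h2 κ
  refine ⟨4 * (K0 + K1), fun a S s hS hSa => ?_⟩
  have hqpos := prod_pos_of_good S s hS
  obtain ⟨q, hq⟩ : ∃ q : ℕ, (q : ℤ) = ∏ Q ∈ S, Q :=
    ⟨(∏ Q ∈ S, Q).toNat, Int.toNat_of_nonneg hqpos.le⟩
  obtain ⟨A, hA⟩ : ∃ A : ℕ, A = 2 ^ S.card * q := ⟨_, rfl⟩
  have hAZ : ((A : ℤ)) = 2 ^ S.card * (∏ Q ∈ S, Q) := by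
    rw [hA, ← hq]
    push_cast
    ring
  have hT : ∀ m : ℕ, 1 ≤ 2 ^ m := fun m => Nat.one_le_two_pow
  obtain ⟨m1, hm1⟩ : ∃ m1 : ℕ, (A : ℝ) < (3 / 2) ^ m1 := pow_unbounded_of_one_lt _ (by norm_num)
  choose X0 hX0 using fun m => hK1 a S s hS hSa (2 ^ m) (hT m)
  refine ⟨max 1 ((Finset.range (m1 + 1)).sup X0), fun X hX => ?_⟩
  have hX1 : 1 ≤ X := (le_max_left _ _).trans hX
  let P : ℕ → Set ℤ := fun m =>
    {b : ℤ | ∃ B : Tup ℤ, Xset κ X (2 ^ m) S s B ∧ chA B = a ∧ chB B = b}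
  have hPfin : ∀ m, (P m).Finite := by
    intro m
    refine ((hK2 a S s X (2 ^ m) (hT m) hX1).1.image fun B => chB B).subset ?_
    rintro p ⟨B, hB, ha, hb⟩
    exact ⟨B, ⟨hB, ha⟩, hb⟩
  have hsub : {b : ℤ | LBad κ X S s a b} ⊆ ⋃ m ∈ Finset.range (κ * X + 1), P m := by
    rintro p ⟨m, B, hB, ha, hb⟩
    rw [Set.mem_iUnion₂]
    refine ⟨m, Finset.mem_range.2 ?_, B, hB, ha, hb⟩
    have h5 := four_pow_le hB.box hB.nz
    have h6 : m < 4 ^ m := Nat.lt_pow_self (by norm_num)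
    omega
  have hfin : (⋃ m ∈ Finset.range (κ * X + 1), P m).Finite :=
    Set.Finite.biUnion (Finset.finite_toSet _) fun m _ => hPfin m
  refine ⟨hfin.subset hsub, ?_⟩
  have hle : {b : ℤ | LBad κ X S s a b}.ncard ≤ ∑ m ∈ Finset.range (κ * X + 1), (P m).ncard :=
    (Set.ncard_le_ncard hsub hfin).trans (ncard_biUnion_le P (κ * X + 1))
  -- each term
  have hterm : ∀ m ∈ Finset.range (κ * X + 1),
      (A : ℝ) * ((P m).ncard : ℝ) ≤ (((K0 + K1 : ℕ) : ℝ) * (X : ℝ) ^ 3) * (3 / 4) ^ m := by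
    intro m _
    have ho : (P m).ncard * 2 ^ m ≤ {B : Tup ℤ | Xset (29 * κ) X (2 ^ m) S s B ∧ chA B = a}.ncard :=
      h3 κ a S s X (2 ^ m) (hT m) (hK0 a S s X (2 ^ m) (hT m) hX1).1
    have hr0 : (0 : ℝ) < 2 ^ m := by positivity
    have hK0r : (0 : ℝ) ≤ (K0 : ℝ) * (X : ℝ) ^ 3 := by positivity
    have hK1r : (0 : ℝ) ≤ (K1 : ℝ) * (X : ℝ) ^ 3 := by positivity
    have hpw : (3 / 4 : ℝ) ^ m * 2 ^ m = (3 / 2) ^ m := by
      rw [← mul_pow]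
      norm_num
    have h32 : (1 : ℝ) ≤ (3 / 2) ^ m := one_le_pow₀ (by norm_num)
    have hgoal : (A : ℝ) * ((P m).ncard : ℝ) * 2 ^ m ≤
        ((K0 : ℝ) * (X : ℝ) ^ 3 + (K1 : ℝ) * (X : ℝ) ^ 3) * (3 / 2) ^ m := by
      by_cases hg : m ≤ m1
      · have hXm : X0 m ≤ X := by
          refine le_trans ?_ ((le_max_right _ _).trans hX)
          exact Finset.le_sup (f := X0) (Finset.mem_range.2 (by omega))
        have hb := (hX0 m X hXm).2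
        rw [← hAZ] at hb
        have hb' : A * {B : Tup ℤ | Xset (29 * κ) X (2 ^ m) S s B ∧ chA B = a}.ncard ≤
            K1 * X ^ 3 := by
          exact_mod_cast hb
        have h5 : A * (P m).ncard * 2 ^ m ≤ K1 * X ^ 3 := by
          calc A * (P m).ncard * 2 ^ m = A * ((P m).ncard * 2 ^ m) := by ring
            _ ≤ A * {B : Tup ℤ | Xset (29 * κ) X (2 ^ m) S s B ∧ chA B = a}.ncard :=
                Nat.mul_le_mul_left _ ho
            _ ≤ _ := hb'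
        have h6 : (A : ℝ) * ((P m).ncard : ℝ) * 2 ^ m ≤ (K1 : ℝ) * (X : ℝ) ^ 3 := by
          exact_mod_cast h5
        nlinarith
      · have hb := (hK0 a S s X (2 ^ m) (hT m) hX1).2
        have h5 : (P m).ncard * 2 ^ m ≤ K0 * X ^ 3 := ho.trans hb
        have h6 : ((P m).ncard : ℝ) * 2 ^ m ≤ (K0 : ℝ) * (X : ℝ) ^ 3 := by
          exact_mod_cast h5
        have h11 : (A : ℝ) ≤ (3 / 2) ^ m :=
          hm1.le.trans (pow_le_pow_right₀ (by norm_num) (not_le.1 hg).le)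
        have hA0 : (0 : ℝ) ≤ A := Nat.cast_nonneg A
        calc (A : ℝ) * ((P m).ncard : ℝ) * 2 ^ m = A * (((P m).ncard : ℝ) * 2 ^ m) := by ring
          _ ≤ (3 / 2) ^ m * ((K0 : ℝ) * (X : ℝ) ^ 3) :=
              mul_le_mul h11 h6 (by positivity) (by positivity)
          _ ≤ ((K0 : ℝ) * (X : ℝ) ^ 3 + (K1 : ℝ) * (X : ℝ) ^ 3) * (3 / 2) ^ m := by
              nlinarith
    have h20 : (A : ℝ) * ((P m).ncard : ℝ) * 2 ^ m ≤
        ((((K0 + K1 : ℕ) : ℝ) * (X : ℝ) ^ 3) * (3 / 4) ^ m) * 2 ^ m := by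
      rw [mul_assoc (((K0 + K1 : ℕ) : ℝ) * (X : ℝ) ^ 3), hpw]
      refine hgoal.trans (le_of_eq ?_)
      push_cast
      ring
    exact le_of_mul_le_mul_right h20 hr0
  have hsum : (A : ℝ) * ({b : ℤ | LBad κ X S s a b}.ncard : ℝ) ≤
      4 * ((K0 + K1 : ℕ) : ℝ) * (X : ℝ) ^ 3 := by
    have h5 : ({b : ℤ | LBad κ X S s a b}.ncard : ℝ) ≤
        ∑ m ∈ Finset.range (κ * X + 1), ((P m).ncard : ℝ) := by exact_mod_cast hle
    calc (A : ℝ) * ({b : ℤ | LBad κ X S s a b}.ncard : ℝ) ≤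
        A * ∑ m ∈ Finset.range (κ * X + 1), ((P m).ncard : ℝ) :=
          mul_le_mul_of_nonneg_left h5 (Nat.cast_nonneg A)
      _ = ∑ m ∈ Finset.range (κ * X + 1), (A : ℝ) * ((P m).ncard : ℝ) := Finset.mul_sum _ _ _
      _ ≤ ∑ m ∈ Finset.range (κ * X + 1),
          (((K0 + K1 : ℕ) : ℝ) * (X : ℝ) ^ 3) * (3 / 4) ^ m := Finset.sum_le_sum hterm
      _ = (((K0 + K1 : ℕ) : ℝ) * (X : ℝ) ^ 3) * (4 * (1 - (3 / 4) ^ (κ * X + 1))) := by
          rw [← Finset.mul_sum, geo_sum]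
      _ ≤ (((K0 + K1 : ℕ) : ℝ) * (X : ℝ) ^ 3) * 4 := by
          refine mul_le_mul_of_nonneg_left ?_ (by positivity)
          have : (0 : ℝ) ≤ (3 / 4) ^ (κ * X + 1) := by positivity
          linarith
      _ = _ := by ring
  have hsum' : A * {b : ℤ | LBad κ X S s a b}.ncard ≤ 4 * (K0 + K1) * X ^ 3 := by
    exact_mod_cast hsum
  rw [← hAZ]
  exact_mod_cast hsum'

end Pool.Agent.L0h84.LR
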